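import Pool.Agent.Y678.CM.Tam2

/-!
# The Tamagawa index of `y² + y = x³` at a ramified place over `3` is odd, III
-/

set_option autoImplicit false

open WithZero WeierstrassCurve

namespace Pool.Agent.Y678.CM

section

variable {L : Type} [Field L] (v : Valuation L ℤᵐ⁰) {θ : L}

variable {v} in
theorem add_le' {a b : L} {n : ℤ} (ha : v a ≤ exp n) (hb : v b ≤ exp n) : v (a + b) ≤ exp n :=
  (v.map_add _ _).trans (max_le ha hb)

variable {v} in
theorem sub_le' {a b : L} {n : ℤ} (ha : v a ≤ exp n) (hb : v b ≤ exp n) : v (a - b) ≤ exp n :=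
  (v.map_sub _ _).trans (max_le ha hb)

variable {v} in
theorem mul_le'' {a b : L} {m n k : ℤ} (ha : v a ≤ exp m) (hb : v b ≤ exp n) (h : m + n ≤ k) :
    v (a * b) ≤ exp k := by
  rw [v.map_mul]
  exact mul_exp ha hb h

variable {v} in
theorem pow_le' {a : L} {m k : ℤ} (j : ℕ) (ha : v a ≤ exp m) (h : j * m ≤ k) :
    v (a ^ j) ≤ exp k := by
  induction j generalizing k with
  | zero =>
    rw [pow_zero, v.map_one, ← exp_zero]
    refine exp_le_exp.2 ?_
    simpa using h
  | succ j ih =>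
    rw [pow_succ]
    refine mul_le'' (ih (k := k - m) ?_) ha (by omega)
    push_cast at h
    linarith

theorem lt_of_cube {a : L} (h : v (a ^ 3) < 1) : v a ≤ exp (-1 : ℤ) := by
  refine lt_one' ?_
  by_contra hcon
  rw [not_lt] at hcon
  rw [v.map_pow] at h
  exact absurd h (not_lt.2 (one_le_pow₀ hcon))

section
variable (hθ : θ ^ 2 = -3) (hv : v θ = exp (-1 : ℤ))
include hθ hv

theorem v3 : v (3 : L) = exp (-2 : ℤ) := by
  have h1 : v (θ ^ 2) = exp (-2 : ℤ) := by
    rw [v.map_pow, hv, ← exp_nsmul]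
    rfl
  rwa [hθ, v.map_neg] at h1

theorem v2 : v (2 : L) = 1 := by
  have h1 : v (3 : L) < v (-1) := by
    rw [v3 v hθ hv, v.map_neg, v.map_one]
    exact exp_lt_one (by norm_num)
  have h2 := v.map_add_eq_of_lt_right h1
  rw [v.map_neg, v.map_one] at h2
  have h3 : (3 : L) + -1 = 2 := by norm_num
  rwa [h3] at h2

theorem v4 : v (4 : L) = 1 := by
  have h1 : (4 : L) = 2 * 2 := by norm_num
  rw [h1, v.map_mul, v2 v hθ hv, one_mul]

theorem vu (s : L) (hs : s = 1 ∨ s = -1) : v (1 + s * θ) = 1 := by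
  have h1 : v (s * θ) < v 1 := by
    rw [v.map_mul, hv, v.map_one]
    have : v s = 1 := by
      rcases hs with h | h
      · rw [h, v.map_one]
      · rw [h, v.map_neg, v.map_one]
    rw [this, one_mul]
    exact exp_lt_one (by norm_num)
  rw [v.map_add_eq_of_lt_left h1, v.map_one]

theorem near_half {a b : L} (hb : v b = 1) (h : v (2 * a - 2 * b) ≤ exp (-2 : ℤ)) :
    cl v a = cl v b := by
  refine cl_near v ?_ hb
  have h1 : 2 * a - 2 * b = 2 * (a - b) := by ring
  rwa [h1, v.map_mul, v2 v hθ hv, one_mul] at h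

theorem sing {x y : L} (hy : y ^ 2 + y = x ^ 3) (h1 : v (2 * y + 1) < 1)
    (h2 : v (3 * x ^ 2) < 1) : cl v y = cl v (1 - θ) ∨ cl v y = cl v (1 + θ) := by
  have t3 := v3 v hθ hv
  have t4 := v4 v hθ hv
  have hx : v x ≤ exp (0 : ℤ) := by
    by_contra hcon
    rw [not_le, exp_zero] at hcon
    have h3 := one_lt' hcon
    rw [v.map_mul, t3, v.map_pow] at h2
    have h4 : (1 : ℤᵐ⁰) ≤ exp (-2 : ℤ) * (v x) ^ 2 := by
      calc (1 : ℤᵐ⁰) = exp (-2 : ℤ) * (exp (1 : ℤ)) ^ 2 := by
            rw [← exp_nsmul, ← exp_add]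
            rfl
        _ ≤ _ := mul_le_mul' le_rfl (pow_le_pow_left' h3 2)
    exact absurd h2 (not_lt.2 h4)
  have hw := lt_one' h1
  set w := 2 * y + 1 with hwdef
  have hw2 : w ^ 2 = 4 * x ^ 3 + 1 := by
    rw [hwdef]
    linear_combination 4 * hy
  have hx1 : v (x + 1) ≤ exp (0 : ℤ) := add_le' hx (by rw [v.map_one, exp_zero])
  have a1 : v (w ^ 2 + 3) ≤ exp (-2 : ℤ) := add_le' (pow_le' 2 hw (by norm_num)) t3.le
  have a2 : v (x ^ 3 + 1) ≤ exp (-2 : ℤ) := by
    have : w ^ 2 + 3 = 4 * (x ^ 3 + 1) := by rw [hw2]; ring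
    rwa [this, v.map_mul, t4, one_mul] at a1
  have a3 : v ((x + 1) ^ 3) ≤ exp (-2 : ℤ) := by
    have : (x + 1) ^ 3 = (x ^ 3 + 1) + 3 * (x * (x + 1)) := by ring
    rw [this]
    exact add_le' a2 (mul_le'' t3.le (mul_le'' (k := 0) hx hx1 (by norm_num)) (by norm_num))
  have a4 : v (x + 1) ≤ exp (-1 : ℤ) := lt_of_cube v (a3.trans_lt (exp_lt_one (by norm_num)))
  have a5 : v ((w - θ) * (w + θ)) ≤ exp (-3 : ℤ) := by
    have : (w - θ) * (w + θ) = 3 * (4 * ((x + 1) * (-x))) + 4 * (x + 1) ^ 3 := by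
      linear_combination hw2 - hθ
    rw [this]
    refine add_le' (mul_le'' (n := -1) t3.le ?_ (by norm_num)) ?_
    · rw [v.map_mul, t4, one_mul]
      exact mul_le'' a4 (n := 0) (by rw [v.map_neg]; exact hx) (by norm_num)
    · rw [v.map_mul, t4, one_mul]
      exact pow_le' 3 a4 (by norm_num)
  have a6 : v (w - θ) ≤ exp (-2 : ℤ) ∨ v (w + θ) ≤ exp (-2 : ℤ) := by
    by_contra hcon
    push Not at hcon
    have hge : ∀ a : ℤᵐ⁰, exp (-2 : ℤ) < a → exp (-1 : ℤ) ≤ a := by
      intro a ha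
      have ha0 : a ≠ 0 := by
        rintro rfl
        exact absurd ha (by simp)
      rw [← exp_log ha0] at ha ⊢
      rw [exp_lt_exp] at ha
      rw [exp_le_exp]
      omega
    have h3 := mul_le_mul' (hge _ hcon.1) (hge _ hcon.2)
    rw [← v.map_mul, ← exp_add] at h3
    have h4 := h3.trans a5
    rw [exp_le_exp] at h4
    norm_num at h4
  rcases a6 with h | h
  · left
    refine near_half v hθ hv ?_ ?_
    · have := vu v hθ hv (-1) (Or.inr rfl)
      rwa [neg_one_mul, ← sub_eq_add_neg] at this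
    · have : 2 * y - 2 * (1 - θ) = (w - θ) + (3 * θ - 3) := by rw [hwdef]; ring
      rw [this]
      refine add_le' h (sub_le' (mul_le'' t3.le hv.le (by norm_num)) t3.le)
  · right
    refine near_half v hθ hv ?_ ?_
    · have := vu v hθ hv 1 (Or.inl rfl)
      rwa [one_mul] at this
    · have : 2 * y - 2 * (1 + θ) = (w + θ) - (3 * θ + 3) := by rw [hwdef]; ring
      rw [this]
      refine sub_le' h (add_le' (mul_le'' t3.le hv.le (by norm_num)) t3.le)

theorem g_inv : cl v (1 - θ) * cl v (1 + θ) = 1 := by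
  have h1 : v (1 - θ) = 1 := by
    have := vu v hθ hv (-1) (Or.inr rfl)
    rwa [neg_one_mul, ← sub_eq_add_neg] at this
  have h2 : v (1 + θ) = 1 := by
    have := vu v hθ hv 1 (Or.inl rfl)
    rwa [one_mul] at this
  have n1 : 1 - θ ≠ 0 := fun h => by rw [h, v.map_zero] at h1; exact zero_ne_one h1
  have n2 : 1 + θ ≠ 0 := fun h => by rw [h, v.map_zero] at h2; exact zero_ne_one h2
  rw [← cl_mul v n1 n2]
  have h3 : (1 - θ) * (1 + θ) = 4 := by linear_combination -hθ
  rw [h3, cl_near v (b := 1) ?_ v.map_one, cl_one]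
  have h4 : (4 : L) - 1 = 3 := by norm_num
  rw [h4]
  exact (v3 v hθ hv).le

theorem g_ne : cl v (1 - θ) ≠ 1 := by
  have t3 := v3 v hθ hv
  have h1 : v (1 - θ) = 1 := by
    have := vu v hθ hv (-1) (Or.inr rfl)
    rwa [neg_one_mul, ← sub_eq_add_neg] at this
  have n1 : 1 - θ ≠ 0 := fun h => by rw [h, v.map_zero] at h1; exact zero_ne_one h1
  intro hcon
  rw [cl_one_iff v n1] at hcon
  obtain ⟨c, hc⟩ := hcon
  have hc0 : (c : L) ≠ 0 := c.ne_zero
  have h2 : v ((1 - θ) / (c : L) ^ 3) = 1 := by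
    have h3 : v ((1 - θ) / (c : L) ^ 3 - 1) < v 1 := by
      rw [v.map_one]
      exact hc.trans_lt (exp_lt_one (by norm_num))
    have h4 := v.map_add_eq_of_lt_right h3
    rwa [sub_add_cancel, v.map_one] at h4
  have h3 : v ((c : L) ^ 3) = 1 := by
    rw [map_div₀, h1, one_div, inv_eq_one] at h2
    exact h2
  have h4 : v ((1 - θ) - (c : L) ^ 3) ≤ exp (-2 : ℤ) := by
    have : (1 - θ) - (c : L) ^ 3 = (c : L) ^ 3 * ((1 - θ) / (c : L) ^ 3 - 1) := by
      field_simp
    rw [this, v.map_mul, h3, one_mul]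
    exact hc
  have hc1 : v (c : L) ≤ exp (0 : ℤ) := by
    rw [exp_zero]
    by_contra hcon
    rw [not_le] at hcon
    rw [v.map_pow] at h3
    exact absurd h3 (one_lt_pow₀ hcon (by norm_num)).ne'
  have h5 : v (1 - (c : L) ^ 3) ≤ exp (-1 : ℤ) := by
    have : 1 - (c : L) ^ 3 = ((1 - θ) - (c : L) ^ 3) + θ := by ring
    rw [this]
    exact add_le' (h4.trans (exp_le_exp.2 (by norm_num))) hv.le
  have h1c : v (1 - (c : L)) ≤ exp (0 : ℤ) := sub_le' (by rw [v.map_one, exp_zero]) hc1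
  have h6 : v (3 * ((c : L) * (1 - (c : L)))) ≤ exp (-1 : ℤ) :=
    mul_le'' t3.le (mul_le'' (k := 0) hc1 h1c (by norm_num)) (by norm_num)
  have h7 : v (1 - (c : L)) ≤ exp (-1 : ℤ) := by
    refine lt_of_cube v ?_
    have : (1 - (c : L)) ^ 3 = (1 - (c : L) ^ 3) - 3 * ((c : L) * (1 - (c : L))) := by ring
    rw [this]
    exact (sub_le' h5 h6).trans_lt (exp_lt_one (by norm_num))
  have h8 : v (1 - (c : L) ^ 3) ≤ exp (-2 : ℤ) := by
    have : 1 - (c : L) ^ 3 = (1 - (c : L)) ^ 3 + 3 * ((c : L) * (1 - (c : L))) := by ring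
    rw [this]
    exact add_le' (pow_le' 3 h7 (by norm_num))
      (mul_le'' t3.le (mul_le'' (k := -1) hc1 h7 (by norm_num)) (by norm_num))
  have h9 : v θ ≤ exp (-2 : ℤ) := by
    have : θ = (1 - (c : L) ^ 3) - ((1 - θ) - (c : L) ^ 3) := by ring
    rw [this]
    exact sub_le' h8 h4
  rw [hv, exp_le_exp] at h9
  norm_num at h9

theorem nons {x y : L} (hy : y ^ 2 + y = x ^ 3) (h : 1 ≤ v (2 * y + 1) ∨ 1 ≤ v (3 * x ^ 2)) :
    cl v y = 1 := by
  have t3 := v3 v hθ hv
  have t2 := v2 v hθ hv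
  by_cases hy0 : y = 0
  · rw [hy0, cl_zero]
  by_cases hx : 1 < v x
  · -- nonintegral point
    have hx0 : x ≠ 0 := by
      rintro rfl
      rw [v.map_zero] at hx
      exact absurd hx (by simp)
    have hx3 : exp (3 : ℤ) ≤ v (x ^ 3) := by
      rw [v.map_pow]
      calc (exp (3 : ℤ) : ℤᵐ⁰) = (exp (1 : ℤ)) ^ 3 := by rw [← exp_nsmul]; rfl
        _ ≤ _ := pow_le_pow_left' (one_lt' hx) 3
    have hy1 : 1 < v y := by
      by_contra hcon
      rw [not_lt] at hcon
      have h1 : v (y ^ 2 + y) ≤ exp (0 : ℤ) := by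
        refine add_le' ?_ (by rw [exp_zero]; exact hcon)
        exact pow_le' 2 (m := 0) (by rw [exp_zero]; exact hcon) (by norm_num)
      rw [hy] at h1
      have h2 := hx3.trans h1
      rw [exp_le_exp] at h2
      norm_num at h2
    have hy2 : exp (2 : ℤ) ≤ v y := by
      by_contra hcon
      rw [not_le] at hcon
      have h1 := lt_exp hcon
      have h2 : v (y ^ 2 + y) ≤ exp (2 : ℤ) := by
        refine add_le' (pow_le' 2 h1 (by norm_num)) (h1.trans (exp_le_exp.2 (by norm_num)))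
      rw [hy] at h2
      have h3 := hx3.trans h2
      rw [exp_le_exp] at h3
      norm_num at h3
    rw [cl_one_iff v hy0]
    refine ⟨Units.mk0 (y / x) (div_ne_zero hy0 hx0), ?_⟩
    have h1 : y / ((Units.mk0 (y / x) (div_ne_zero hy0 hx0) : Lˣ) : L) ^ 3 - 1 = 1 / y := by
      rw [Units.val_mk0]
      have h2 : y / (y / x) ^ 3 = x ^ 3 / y ^ 2 := by
        field_simp
      rw [h2, ← hy]
      field_simp
      ring
    rw [h1, map_div₀, v.map_one, one_div]
    have h2 : (v y)⁻¹ ≤ (exp (2 : ℤ))⁻¹ := inv_anti₀ (by simp) hy2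
    rwa [← exp_neg] at h2
  · rw [not_lt] at hx
    have hx' : v x ≤ exp (0 : ℤ) := by rw [exp_zero]; exact hx
    have hy1 : v y ≤ exp (0 : ℤ) := by
      rw [exp_zero]
      by_contra hcon
      rw [not_le] at hcon
      have h1 : v y < v (y ^ 2) := by
        rw [v.map_pow, sq]
        have h0 : 0 < v y := lt_trans zero_lt_one hcon
        calc v y = v y * 1 := (mul_one _).symm
          _ < v y * v y := by
            exact mul_lt_mul_of_pos_left hcon h0
      have h2 := v.map_add_eq_of_lt_left h1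
      rw [hy] at h2
      have h3 : v (x ^ 3) ≤ exp (0 : ℤ) := pow_le' 3 hx' (by norm_num)
      rw [h2, exp_zero, v.map_pow] at h3
      exact absurd h3 (not_le.2 (one_lt_pow₀ hcon (by norm_num)))
    have hw : v (2 * y + 1) = 1 := by
      refine le_antisymm ?_ ?_
      · have h1 : v (2 * y + 1) ≤ exp (0 : ℤ) := by
          refine add_le' ?_ (by rw [v.map_one, exp_zero])
          rw [v.map_mul, t2, one_mul]
          exact hy1
        rwa [exp_zero] at h1
      · rcases h with h | h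
        · exact h
        · exfalso
          have h1 : v (3 * x ^ 2) ≤ exp (-2 : ℤ) :=
            mul_le'' t3.le (pow_le' 2 (k := 0) hx' (by norm_num)) (by norm_num)
          have h2 : (1 : ℤᵐ⁰) ≤ exp (-2 : ℤ) := h.trans h1
          exact absurd h2 (not_le.2 (exp_lt_one (by norm_num)))
    set w := 2 * y + 1 with hwdef
    have hw2 : w ^ 2 = 4 * x ^ 3 + 1 := by
      rw [hwdef]
      linear_combination 4 * hy
    have e1 : (1 + x) ^ 3 = w ^ 2 + 3 * (x + x ^ 2 - x ^ 3) := by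
      rw [hw2]
      ring
    have hr : v (x + x ^ 2 - x ^ 3) ≤ exp (0 : ℤ) :=
      sub_le' (add_le' hx' (pow_le' 2 hx' (by norm_num))) (pow_le' 3 hx' (by norm_num))
    have h3r : v (3 * (x + x ^ 2 - x ^ 3)) ≤ exp (-2 : ℤ) := mul_le'' t3.le hr (by norm_num)
    have hw2v : v (w ^ 2) = 1 := by rw [v.map_pow, hw, one_pow]
    have h1x : v ((1 + x) ^ 3) = 1 := by
      rw [e1]
      have h2 : v (3 * (x + x ^ 2 - x ^ 3)) < v (w ^ 2) := by
        rw [hw2v]
        exact h3r.trans_lt (exp_lt_one (by norm_num))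
      rw [v.map_add_eq_of_lt_left h2, hw2v]
    have h1x0 : (1 + x) ≠ 0 := by
      intro h0
      rw [h0, zero_pow (by norm_num), v.map_zero] at h1x
      exact zero_ne_one h1x
    set t := w / (1 + x) with ht
    have ht3 : v (w - t ^ 3) ≤ exp (-2 : ℤ) := by
      have : w - t ^ 3 = w * (3 * (x + x ^ 2 - x ^ 3)) / (1 + x) ^ 3 := by
        rw [ht]
        field_simp
        rw [e1]
        ring
      rw [this, map_div₀, h1x, div_one, v.map_mul, hw, one_mul]
      exact h3r
    have htv : v t ≤ exp (0 : ℤ) := by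
      rw [exp_zero]
      by_contra hcon
      rw [not_le] at hcon
      have h2 : v (t ^ 3) = 1 := by
        rw [ht, div_pow, map_div₀, h1x, div_one, v.map_pow, hw, one_pow]
      rw [v.map_pow] at h2
      exact absurd h2 (one_lt_pow₀ hcon (by norm_num)).ne'
    have ht2 : v (t ^ 2) ≤ exp (0 : ℤ) := pow_le' 2 htv (by norm_num)
    have ht3' : v (t ^ 3) ≤ exp (0 : ℤ) := pow_le' 3 htv (by norm_num)
    have hone : v (1 : L) ≤ exp (0 : ℤ) := by rw [v.map_one, exp_zero]
    have h2le : v (2 : L) ≤ exp (0 : ℤ) := by rw [t2, exp_zero]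
    by_cases hyu : v y = 1
    · refine cl_near_cube v (c := 1 - t) ?_ hyu
      have e2 : 2 * (y - (1 - t) ^ 3) = (w - t ^ 3) + 3 * (t ^ 3 + 2 * t - 2 * t ^ 2 - 1) := by
        rw [hwdef]
        ring
      have e3 : v (2 * (y - (1 - t) ^ 3)) ≤ exp (-2 : ℤ) := by
        rw [e2]
        refine add_le' ht3 (mul_le'' t3.le (n := 0) ?_ (by norm_num))
        exact sub_le' (sub_le' (add_le' ht3' (mul_le'' h2le htv (by norm_num)))
          (mul_le'' h2le ht2 (by norm_num))) hone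
      rwa [v.map_mul, t2, one_mul] at e3
    · have hylt : v y < v 1 := by
        rw [v.map_one]
        rw [exp_zero] at hy1
        exact lt_of_le_of_ne hy1 hyu
      have hy1u : v (y + 1) = 1 := by rw [v.map_add_eq_of_lt_right hylt, v.map_one]
      have h1 : cl v (y + 1) = 1 := by
        refine cl_near_cube v (c := -(1 + t)) ?_ hy1u
        have e2 : 2 * (y + 1 - (-(1 + t)) ^ 3) =
            (w - t ^ 3) + 3 * (t ^ 3 + 2 * t + 2 * t ^ 2 + 1) := by
          rw [hwdef]
          ring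
        have e3 : v (2 * (y + 1 - (-(1 + t)) ^ 3)) ≤ exp (-2 : ℤ) := by
          rw [e2]
          refine add_le' ht3 (mul_le'' t3.le (n := 0) ?_ (by norm_num))
          exact add_le' (add_le' (add_le' ht3' (mul_le'' h2le htv (by norm_num)))
            (mul_le'' h2le ht2 (by norm_num))) hone
        rwa [v.map_mul, t2, one_mul] at e3
      have h2 := cl_pt v hy
      rwa [h1, mul_one] at h2

end

end

theorem tam_odd {L : Type} [Field L] [DecidableEq L] (v : Valuation L ℤᵐ⁰) {θ : L}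
    (hθ : θ ^ 2 = -3) (hv : v θ = exp (-1 : ℤ)) {W : WeierstrassCurve L}
    (h : W.a₁ = 0 ∧ W.a₂ = 0 ∧ W.a₃ = 1 ∧ W.a₄ = 0 ∧ W.a₆ = 0) :
    ∃ H : AddSubgroup W.toAffine.Point, (∀ P, P ∈ H ↔ NsRed v W P) ∧ Odd H.index := by
  have hg := g_inv v hθ hv
  have hne := g_ne v hθ hv
  have hg3 : cl v (1 - θ) ^ 3 = 1 := by
    have h1 : v (1 - θ) = 1 := by
      have := vu v hθ hv (-1) (Or.inr rfl)
      rwa [neg_one_mul, ← sub_eq_add_neg] at this
    have n1 : 1 - θ ≠ 0 := fun h => by rw [h, v.map_zero] at h1; exact zero_ne_one h1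
    have h2 := cl_cube v (1 - θ)
    have h3 : (1 - θ) ^ 3 = (1 - θ) * (1 - θ) * (1 - θ) := by ring
    rw [h3, cl_mul v (mul_ne_zero n1 n1) n1, cl_mul v n1 n1] at h2
    rw [pow_succ, pow_two]
    exact h2
  have hgi : cl v (1 + θ) = (cl v (1 - θ))⁻¹ := eq_inv_of_mul_eq_one_right hg
  have hred : ∀ x y (hP : W.toAffine.Nonsingular x y), NsRed v W (.some x y hP) ↔
      (1 ≤ v (2 * y + 1) ∨ 1 ≤ v (3 * x ^ 2)) := by
    intro x y hP
    show (1 ≤ v (2 * y + W.a₁ * x + W.a₃) ∨
      1 ≤ v (3 * x ^ 2 + 2 * W.a₂ * x + W.a₄ - W.a₁ * y)) ↔ _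
    obtain ⟨h1, h2, h3, h4, h6⟩ := h
    rw [h1, h2, h3, h4]
    have e1 : 2 * y + 0 * x + 1 = 2 * y + 1 := by ring
    have e2 : 3 * x ^ 2 + 2 * 0 * x + 0 - 0 * y = 3 * x ^ 2 := by ring
    rw [e1, e2]
  have hpt : ∀ P, Psi v h P = 0 ↔ NsRed v W P := by
    rintro (_ | ⟨x, y, hP⟩)
    · exact ⟨fun _ => trivial, fun _ => rfl⟩
    · have hy := (eqn_iff h _ _).1 hP.1
      rw [hred]
      constructor
      · intro h0
        by_contra hcon
        push Not at hcon
        have h0' : cl v y = 1 := Additive.ofMul.injective h0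
        rcases sing v hθ hv hy hcon.1 hcon.2 with h1 | h1
        · exact hne (h1.symm.trans h0')
        · rw [hgi] at h1
          have h2 := h1.symm.trans h0'
          exact hne (inv_eq_one.1 h2)
      · intro h0
        show Additive.ofMul (cl v y) = 0
        rw [nons v hθ hv hy h0, ofMul_one]
  refine ⟨(Psi v h).ker, fun P => ?_, ?_⟩
  · rw [AddMonoidHom.mem_ker, hpt]
  · rw [AddSubgroup.index_ker]
    have hle : (Psi v h).range ≤ AddSubgroup.zmultiples (Additive.ofMul (cl v (1 - θ))) := by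
      rintro _ ⟨P, rfl⟩
      match P with
      | .zero => exact AddSubgroup.zero_mem _
      | .some x y hP =>
        have hy := (eqn_iff h _ _).1 hP.1
        show Additive.ofMul (cl v y) ∈ _
        by_cases hn : 1 ≤ v (2 * y + 1) ∨ 1 ≤ v (3 * x ^ 2)
        · rw [nons v hθ hv hy hn, ofMul_one]
          exact AddSubgroup.zero_mem _
        · push Not at hn
          rcases sing v hθ hv hy hn.1 hn.2 with h1 | h1
          · rw [h1]
            exact AddSubgroup.mem_zmultiples _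
          · rw [h1, hgi, ofMul_inv]
            exact AddSubgroup.neg_mem _ (AddSubgroup.mem_zmultiples _)
    have h1 := AddSubgroup.card_dvd_of_le hle
    rw [Nat.card_zmultiples] at h1
    have h2 : addOrderOf (Additive.ofMul (cl v (1 - θ))) ∣ 3 := by
      rw [addOrderOf_dvd_iff_nsmul_eq_zero, ← ofMul_pow, hg3, ofMul_one]
    exact Odd.of_dvd_nat (by decide : Odd 3) (h1.trans h2)

end Pool.Agent.Y678.CM
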