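import Mathlib

/-!
# The Tamagawa index of `y² + y = x³` at a ramified place over `3` is odd
-/

set_option autoImplicit false

open WithZero

namespace Pool.Agent.Y678.CM

/-- nonsingular reduction -/
def NsRed {L : Type} [Field L] (v : Valuation L ℤᵐ⁰) (W : WeierstrassCurve L) :
    W.toAffine.Point → Prop
  | .zero => True
  | .some x y _ => 1 ≤ v (2 * y + W.a₁ * x + W.a₃) ∨
      1 ≤ v (3 * x ^ 2 + 2 * W.a₂ * x + W.a₄ - W.a₁ * y)

theorem lt_exp {a : ℤᵐ⁰} {n : ℤ} (h : a < exp n) : a ≤ exp (n - 1) := by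
  by_cases ha : a = 0
  · rw [ha]; exact zero_le
  · rw [← exp_log ha] at h ⊢
    rw [exp_lt_exp] at h
    rw [exp_le_exp]
    omega

theorem lt_one' {a : ℤᵐ⁰} (h : a < 1) : a ≤ exp (-1 : ℤ) := by
  rw [← exp_zero] at h
  simpa using lt_exp h

theorem one_lt' {a : ℤᵐ⁰} (h : 1 < a) : exp (1 : ℤ) ≤ a := by
  have ha : a ≠ 0 := by
    rintro rfl
    exact absurd h (by simp)
  rw [← exp_log ha] at h ⊢
  rw [← exp_zero, exp_lt_exp] at h
  rw [exp_le_exp]
  omega

theorem exp_lt_one {n : ℤ} (h : n < 0) : (exp n : ℤᵐ⁰) < 1 := by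
  rw [← exp_zero, exp_lt_exp]
  exact h

theorem mul_exp {a b : ℤᵐ⁰} {m n k : ℤ} (ha : a ≤ exp m) (hb : b ≤ exp n) (h : m + n ≤ k) :
    a * b ≤ exp k := by
  calc a * b ≤ exp m * exp n := mul_le_mul' ha hb
    _ = exp (m + n) := (exp_add m n).symm
    _ ≤ exp k := exp_le_exp.2 h

section

variable {L : Type} [Field L] (v : Valuation L ℤᵐ⁰)

/-- the subgroup of the units which are almost cubes -/
def CC : Subgroup Lˣ where
  carrier := {u | ∃ c : Lˣ, v ((u : L) / (c : L) ^ 3 - 1) ≤ exp (-2 : ℤ)}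
  one_mem' := ⟨1, by simp⟩
  mul_mem' := by
    rintro a b ⟨c, hc⟩ ⟨d, hd⟩
    refine ⟨c * d, ?_⟩
    have h0 : (c : L) ≠ 0 := c.ne_zero
    have h1 : (d : L) ≠ 0 := d.ne_zero
    have h2 : ((a * b : Lˣ) : L) / ((c * d : Lˣ) : L) ^ 3 - 1 =
        ((a : L) / (c : L) ^ 3 - 1) * ((b : L) / (d : L) ^ 3 - 1) +
          (((a : L) / (c : L) ^ 3 - 1) + ((b : L) / (d : L) ^ 3 - 1)) := by
      push_cast
      field_simp
      ring
    rw [h2]
    refine (v.map_add _ _).trans (max_le ?_ ((v.map_add _ _).trans (max_le hc hd)))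
    rw [v.map_mul]
    exact mul_exp hc hd (by norm_num)
  inv_mem' := by
    rintro a ⟨c, hc⟩
    refine ⟨c⁻¹, ?_⟩
    have h0 : (c : L) ≠ 0 := c.ne_zero
    have ha : (a : L) ≠ 0 := a.ne_zero
    have h1 : v ((a : L) / (c : L) ^ 3) = 1 := by
      have h2 : v ((a : L) / (c : L) ^ 3 - 1) < v 1 := by
        rw [v.map_one]
        exact hc.trans_lt (exp_lt_one (by norm_num))
      have h3 := v.map_add_eq_of_lt_right h2
      rwa [sub_add_cancel, v.map_one] at h3
    have h2 : (((a⁻¹ : Lˣ) : L)) / ((c⁻¹ : Lˣ) : L) ^ 3 - 1 =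
        -(((a : L) / (c : L) ^ 3 - 1) / ((a : L) / (c : L) ^ 3)) := by
      push_cast
      field_simp
      ring
    rw [h2, v.map_neg, map_div₀, h1, div_one]
    exact hc

/-- the quotient -/
def QQ : Type := Lˣ ⧸ CC v

instance : CommGroup (QQ v) := inferInstanceAs (CommGroup (Lˣ ⧸ CC v))

/-- the projection -/
def mkQ : Lˣ →* QQ v := QuotientGroup.mk' (CC v)

theorem mkQ_one {u : Lˣ} : mkQ v u = 1 ↔ u ∈ CC v := QuotientGroup.eq_one_iff u

open Classical in
/-- the class modulo almost cubes -/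
noncomputable def cl (u : L) : QQ v := if h : u = 0 then 1 else mkQ v (Units.mk0 u h)

theorem cl_zero : cl v (0 : L) = 1 := by
  unfold cl
  rw [dif_pos rfl]

theorem cl_of {u : L} (h : u ≠ 0) : cl v u = mkQ v (Units.mk0 u h) := by
  unfold cl
  rw [dif_neg h]

theorem cl_mul {a b : L} (ha : a ≠ 0) (hb : b ≠ 0) : cl v (a * b) = cl v a * cl v b := by
  rw [cl_of v ha, cl_of v hb, cl_of v (mul_ne_zero ha hb), ← map_mul]
  congr 1
  ext
  rfl

theorem cl_one_iff {u : L} (h : u ≠ 0) :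
    cl v u = 1 ↔ ∃ c : Lˣ, v (u / (c : L) ^ 3 - 1) ≤ exp (-2 : ℤ) := by
  rw [cl_of v h, mkQ_one]
  rfl

theorem cl_cube (c : L) : cl v (c ^ 3) = 1 := by
  by_cases hc : c = 0
  · rw [hc, zero_pow (by norm_num), cl_zero]
  · rw [cl_one_iff v (pow_ne_zero 3 hc)]
    refine ⟨Units.mk0 c hc, ?_⟩
    rw [Units.val_mk0, div_self (pow_ne_zero 3 hc), sub_self, v.map_zero]
    exact zero_le

theorem cl_one : cl v (1 : L) = 1 := by
  have := cl_cube v (1 : L)
  rwa [one_pow] at this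

theorem cl_neg (a : L) : cl v (-a) = cl v a := by
  by_cases ha : a = 0
  · rw [ha, neg_zero]
  · have h1 : -a = (-1) ^ 3 * a := by ring
    rw [h1, cl_mul v (by norm_num) ha, cl_cube, one_mul]

theorem cl_near {a b : L} (h : v (a - b) ≤ exp (-2 : ℤ)) (hb : v b = 1) : cl v a = cl v b := by
  have hb0 : b ≠ 0 := by
    rintro rfl
    rw [v.map_zero] at hb
    exact zero_ne_one hb
  have h1 : v a = 1 := by
    have h2 : v (a - b) < v b := by
      rw [hb]
      exact h.trans_lt (exp_lt_one (by norm_num))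
    have h3 := v.map_add_eq_of_lt_right h2
    rwa [sub_add_cancel, hb] at h3
  have ha0 : a ≠ 0 := by
    rintro rfl
    rw [v.map_zero] at h1
    exact zero_ne_one h1
  have h4 : a = b * (a / b) := by field_simp
  have h5 : cl v (a / b) = 1 := by
    rw [cl_one_iff v (div_ne_zero ha0 hb0)]
    refine ⟨1, ?_⟩
    have h6 : a / b / ((1 : Lˣ) : L) ^ 3 - 1 = (a - b) / b := by
      push_cast
      field_simp
    rw [h6, map_div₀, hb, div_one]
    exact h
  rw [h4, cl_mul v hb0 (div_ne_zero ha0 hb0), h5, mul_one]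

theorem cl_near_cube {a c : L} (h : v (a - c ^ 3) ≤ exp (-2 : ℤ)) (ha : v a = 1) :
    cl v a = 1 := by
  have h1 : v (c ^ 3) = 1 := by
    have h2 : v (a - c ^ 3) < v a := by
      rw [ha]
      exact h.trans_lt (exp_lt_one (by norm_num))
    have h3 := v.map_sub_eq_of_lt_right h2
    have h4 : a - (a - c ^ 3) = c ^ 3 := by ring
    rw [v.map_sub_swap, h4] at h3
    rw [h3, ha]
  rw [cl_near v h h1, cl_cube]

end

end Pool.Agent.Y678.CM
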