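import Pool.Agent.Y678.CM.Tam

/-!
# The Tamagawa index of `y² + y = x³` at a ramified place over `3` is odd, II
-/

set_option autoImplicit false

open WithZero WeierstrassCurve

namespace Pool.Agent.Y678.CM

section

variable {L : Type} [Field L] [DecidableEq L] (v : Valuation L ℤᵐ⁰) {W : WeierstrassCurve L}

/-- the equation -/
def Eqn (W : WeierstrassCurve L) : Prop := W.a₁ = 0 ∧ W.a₂ = 0 ∧ W.a₃ = 1 ∧ W.a₄ = 0 ∧ W.a₆ = 0

omit [DecidableEq L] in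
theorem eqn_iff (h : Eqn W) (x y : L) : W.toAffine.Equation x y ↔ y ^ 2 + y = x ^ 3 := by
  obtain ⟨h1, h2, h3, h4, h6⟩ := h
  rw [Affine.equation_iff, h1, h2, h3, h4, h6]
  constructor <;> intro h <;> linear_combination h

theorem vieta (h : Eqn W) {x₁ x₂ y₁ y₂ : L} (h₁ : W.toAffine.Equation x₁ y₁)
    (h₂ : W.toAffine.Equation x₂ y₂) (hxy : ¬(x₁ = x₂ ∧ y₁ = W.toAffine.negY x₂ y₂)) :
    ∃ ℓ ν : L, y₁ = ℓ * x₁ + ν ∧ y₂ = ℓ * x₂ + ν ∧
      W.toAffine.negAddY x₁ x₂ y₁ (W.toAffine.slope x₁ x₂ y₁ y₂) =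
        ℓ * W.toAffine.addX x₁ x₂ (W.toAffine.slope x₁ x₂ y₁ y₂) + ν ∧
      y₁ * y₂ * W.toAffine.negAddY x₁ x₂ y₁ (W.toAffine.slope x₁ x₂ y₁ y₂) = ν ^ 3 ∧
      (y₁ + 1) * (y₂ + 1) * (W.toAffine.negAddY x₁ x₂ y₁ (W.toAffine.slope x₁ x₂ y₁ y₂) + 1) =
        (ν + 1) ^ 3 := by
  have key := Affine.addPolynomial_slope h₁ h₂ hxy
  rw [Affine.addPolynomial_eq, neg_inj, Cubic.prod_X_sub_C_eq, Cubic.toPoly_injective] at key
  have hl : y₂ = W.toAffine.slope x₁ x₂ y₁ y₂ * (x₂ - x₁) + y₁ := by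
    by_cases hx : x₁ = x₂
    · have hy : y₁ ≠ W.toAffine.negY x₂ y₂ := fun h => hxy ⟨hx, h⟩
      rw [Affine.Y_eq_of_Y_ne h₁ h₂ hx hy, hx]
      ring
    · rw [Affine.slope_of_X_ne hx]
      have : x₁ - x₂ ≠ 0 := sub_ne_zero.2 hx
      field_simp
      ring
  set ℓ := W.toAffine.slope x₁ x₂ y₁ y₂ with hℓ
  set x₃ := W.toAffine.addX x₁ x₂ ℓ with hx₃
  obtain ⟨h1, h2, h3, h4, h6⟩ := h
  have hy₃ : W.toAffine.negAddY x₁ x₂ y₁ ℓ = ℓ * (x₃ - x₁) + y₁ := rfl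
  have eb := congrArg Cubic.b key
  have ec := congrArg Cubic.c key
  have ed := congrArg Cubic.d key
  dsimp only at eb ec ed
  rw [h1, h2] at eb
  rw [h1, h3, h4] at ec
  rw [h3, h6] at ed
  refine ⟨ℓ, y₁ - ℓ * x₁, by ring, by rw [hl]; ring, by rw [hy₃]; ring, ?_, ?_⟩
  · rw [hy₃]
    conv_lhs => rw [hl]
    linear_combination ℓ ^ 3 * ed - ℓ ^ 2 * (y₁ - ℓ * x₁) * ec +
      ℓ * (y₁ - ℓ * x₁) ^ 2 * eb
  · rw [hy₃]
    conv_lhs => rw [hl]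
    linear_combination ℓ ^ 3 * ed - ℓ ^ 2 * (y₁ - ℓ * x₁ + 1) * ec +
      ℓ * (y₁ - ℓ * x₁ + 1) ^ 2 * eb

omit [DecidableEq L] in
theorem cl_pt {x y : L} (h : y ^ 2 + y = x ^ 3) : cl v y * cl v (y + 1) = 1 := by
  by_cases h0 : y = 0
  · rw [h0, cl_zero, zero_add, cl_one, mul_one]
  by_cases h1 : y + 1 = 0
  · have : y = -1 := by linear_combination h1
    rw [h1, cl_zero, this, cl_neg, cl_one, mul_one]
  rw [← cl_mul v h0 h1]
  have h2 : y * (y + 1) = x ^ 3 := by linear_combination h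
  rw [h2, cl_cube]

theorem cl_add (h : Eqn W) {x₁ x₂ y₁ y₂ : L} (h₁ : W.toAffine.Equation x₁ y₁)
    (h₂ : W.toAffine.Equation x₂ y₂) (hxy : ¬(x₁ = x₂ ∧ y₁ = W.toAffine.negY x₂ y₂)) :
    cl v (W.toAffine.addY x₁ x₂ y₁ (W.toAffine.slope x₁ x₂ y₁ y₂)) = cl v y₁ * cl v y₂ := by
  obtain ⟨ℓ, ν, e1, e2, e3, p1, p2⟩ := vieta h h₁ h₂ hxy
  have h₃ := Affine.equation_negAdd h₁ h₂ hxy
  rw [eqn_iff h] at h₁ h₂ h₃
  have e4 : W.toAffine.addY x₁ x₂ y₁ (W.toAffine.slope x₁ x₂ y₁ y₂) =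
      -(W.toAffine.negAddY x₁ x₂ y₁ (W.toAffine.slope x₁ x₂ y₁ y₂) + 1) := by
    rw [Affine.addY, Affine.negY, h.1, h.2.2.1]
    ring
  rw [e4, cl_neg]
  set x₃ := W.toAffine.addX x₁ x₂ (W.toAffine.slope x₁ x₂ y₁ y₂)
  set y₃ := W.toAffine.negAddY x₁ x₂ y₁ (W.toAffine.slope x₁ x₂ y₁ y₂)
  have c1 := cl_pt v h₁
  have c2 := cl_pt v h₂
  have c3 := cl_pt v h₃
  suffices hs : cl v y₁ * cl v y₂ * cl v y₃ = 1 by
    have h5 : cl v (y₃ + 1) = (cl v y₃)⁻¹ := eq_inv_of_mul_eq_one_right c3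
    rw [h5]
    exact (eq_inv_of_mul_eq_one_left hs).symm
  have hz : ∀ x y : L, y ^ 2 + y = x ^ 3 → y = ℓ * x + ν → y = 0 → ν = 0 := by
    intro x y hy hl h0
    have hx : x = 0 := by
      have : x ^ 3 = 0 := by rw [← hy, h0]; ring
      exact pow_eq_zero_iff (by norm_num) |>.1 this
    rw [hx, h0] at hl
    linear_combination -hl
  have hm : ∀ x y : L, y ^ 2 + y = x ^ 3 → y = ℓ * x + ν → y + 1 = 0 → ν = -1 := by
    intro x y hy hl h0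
    have h0' : y = -1 := by linear_combination h0
    have hx : x = 0 := by
      have : x ^ 3 = 0 := by rw [← hy, h0']; ring
      exact pow_eq_zero_iff (by norm_num) |>.1 this
    rw [hx, h0'] at hl
    linear_combination -hl
  by_cases hν : ν = 0
  · have n1 : y₁ + 1 ≠ 0 := fun h0 => by
      have := hm _ _ h₁ e1 h0
      rw [hν] at this
      exact absurd this (by simp)
    have n2 : y₂ + 1 ≠ 0 := fun h0 => by
      have := hm _ _ h₂ e2 h0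
      rw [hν] at this
      exact absurd this (by simp)
    have n3 : y₃ + 1 ≠ 0 := fun h0 => by
      have := hm _ _ h₃ e3 h0
      rw [hν] at this
      exact absurd this (by simp)
    have h6 : cl v (y₁ + 1) * cl v (y₂ + 1) * cl v (y₃ + 1) = 1 := by
      rw [← cl_mul v n1 n2, ← cl_mul v (mul_ne_zero n1 n2) n3, p2, cl_cube]
    have i1 : cl v y₁ = (cl v (y₁ + 1))⁻¹ := eq_inv_of_mul_eq_one_left c1
    have i2 : cl v y₂ = (cl v (y₂ + 1))⁻¹ := eq_inv_of_mul_eq_one_left c2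
    have i3 : cl v y₃ = (cl v (y₃ + 1))⁻¹ := eq_inv_of_mul_eq_one_left c3
    rw [i1, i2, i3, ← mul_inv, ← mul_inv, h6, inv_one]
  · have n1 : y₁ ≠ 0 := fun h0 => hν (hz _ _ h₁ e1 h0)
    have n2 : y₂ ≠ 0 := fun h0 => hν (hz _ _ h₂ e2 h0)
    have n3 : y₃ ≠ 0 := fun h0 => hν (hz _ _ h₃ e3 h0)
    rw [← cl_mul v n1 n2, ← cl_mul v (mul_ne_zero n1 n2) n3, p1, cl_cube]

/-- the homomorphism -/
noncomputable def Psi (h : Eqn W) : W.toAffine.Point →+ Additive (QQ v) where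
  toFun P := match P with
    | .zero => 0
    | .some _ y _ => Additive.ofMul (cl v y)
  map_zero' := rfl
  map_add' := by
    rintro (_ | ⟨x₁, y₁, h₁⟩) (_ | ⟨x₂, y₂, h₂⟩)
    · show (0 : Additive (QQ v)) = 0 + 0
      rw [add_zero]
    · show Additive.ofMul (cl v y₂) = 0 + Additive.ofMul (cl v y₂)
      rw [zero_add]
    · show Additive.ofMul (cl v y₁) = Additive.ofMul (cl v y₁) + 0
      rw [add_zero]
    · by_cases hxy : x₁ = x₂ ∧ y₁ = W.toAffine.negY x₂ y₂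
      · rw [Affine.Point.add_of_Y_eq hxy.1 hxy.2]
        show (0 : Additive (QQ v)) = Additive.ofMul (cl v y₁) + Additive.ofMul (cl v y₂)
        have e1 : y₁ = -(y₂ + 1) := by
          rw [hxy.2, Affine.negY, h.1, h.2.2.1]
          ring
        have h₂' := (eqn_iff h _ _).1 h₂.1
        rw [← ofMul_mul, e1, cl_neg, mul_comm, cl_pt v h₂', ofMul_one]
      · rw [Affine.Point.add_some hxy]
        show Additive.ofMul (cl v (W.toAffine.addY x₁ x₂ y₁ (W.toAffine.slope x₁ x₂ y₁ y₂))) =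
          Additive.ofMul (cl v y₁) + Additive.ofMul (cl v y₂)
        rw [cl_add v h h₁.1 h₂.1 hxy, ofMul_mul]

end

end Pool.Agent.Y678.CM
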